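import Pool.Agent.Q120.LD.Kak

/-!
# Project LD, job KAKA: the second moment bound
-/

set_option autoImplicit false

namespace Pool.Agent.Q190.LD

open Finset Filter Pool.Agent.Q120.LD

theorem eventually_log_le {η : ℝ} (hη : 0 < η) :
    ∀ᶠ x : ℕ in atTop, ((Nat.log 2 x : ℕ) : ℝ) + 1 ≤ (x : ℝ) ^ η := by
  have h2 : 0 < Real.log 2 := Real.log_pos one_lt_two
  set K : ℝ := 2 / (η * Real.log 2) + 1 with hK
  have hK1 : 1 ≤ K := by
    have : 0 ≤ 2 / (η * Real.log 2) := by positivity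
    linarith
  have h1 : ∀ᶠ x : ℕ in atTop, K ≤ (x : ℝ) ^ (η / 2) :=
    ((tendsto_rpow_atTop (half_pos hη)).comp tendsto_natCast_atTop_atTop).eventually_ge_atTop K
  filter_upwards [h1, eventually_ge_atTop 1] with x hx hx1
  have hxr : (1 : ℝ) ≤ x := by exact_mod_cast hx1
  set y := (x : ℝ) ^ (η / 2) with hy
  have hyy : (x : ℝ) ^ η = y * y := by
    rw [hy, ← Real.rpow_add (by linarith)]
    congr 1
    ring
  have h3 : Real.log x ≤ y / (η / 2) := Real.log_le_rpow_div (by linarith) (half_pos hη)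
  have h4 : ((Nat.log 2 x : ℕ) : ℝ) ≤ Real.log x / Real.log 2 := by
    rw [le_div_iff₀ h2, ← Real.log_pow]
    apply Real.log_le_log (by positivity)
    exact_mod_cast Nat.pow_log_le_self 2 (by omega)
  have h5 : Real.log x / Real.log 2 ≤ (2 / (η * Real.log 2)) * y := by
    rw [div_le_iff₀ h2]
    calc Real.log x ≤ y / (η / 2) := h3
      _ = 2 / (η * Real.log 2) * y * Real.log 2 := by field_simp
  have hy1 : 1 ≤ y := le_trans hK1 hx
  rw [hyy]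
  calc ((Nat.log 2 x : ℕ) : ℝ) + 1 ≤ (2 / (η * Real.log 2)) * y + 1 * y := by linarith
    _ = K * y := by rw [hK]; ring
    _ ≤ y * y := mul_le_mul_of_nonneg_right hx (by linarith)

theorem t_KAKA : J_KAKA := by
  classical
  intro hG hS θ δ hθ hθ1 hδ hδ1 hδθ
  set γ := min (1 - δ) (2 - 2 * θ - δ) with hγ
  have hγ0 : 0 < γ := lt_min (by linarith) (by linarith)
  set η := γ / 20 with hη
  have hη0 : 0 < η := by positivity
  have hγ1 : γ ≤ 1 - δ := min_le_left _ _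
  have hγ2 : γ ≤ 2 - 2 * θ - δ := min_le_right _ _
  have hγη : γ = 20 * η := by rw [hη]; ring
  obtain ⟨C, hC, hSEC⟩ := hS hG η hη0
  have e1 : ∀ᶠ x : ℕ in atTop, max 8 (8 * C) ≤ (x : ℝ) ^ η :=
    ((tendsto_rpow_atTop hη0).comp tendsto_natCast_atTop_atTop).eventually_ge_atTop _
  refine ⟨η, hη0, ?_⟩
  filter_upwards [e1, eventually_log_le hη0, eventually_ge_atTop 1] with x hx hxl hx1
  intro Q N hQ1 hQx hN hrich
  have hx8 : 8 ≤ (x : ℝ) ^ η := le_trans (le_max_left _ _) hx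
  have hx8C : 8 * C ≤ (x : ℝ) ^ η := le_trans (le_max_right _ _) hx
  have hxr : (1 : ℝ) ≤ x := by exact_mod_cast hx1
  have hx0 : (0 : ℝ) < x := by linarith
  have hQr : (1 : ℝ) ≤ Q := by exact_mod_cast hQ1
  have hQ0 : (0 : ℝ) < Q := by linarith
  set l := (x : ℝ) ^ (1 - η) / Q with hl
  set J := rich N Q l with hJ
  have hJsub : ∀ q ∈ J, 1 ≤ q ∧ q ≤ Q := by
    intro q hq
    rw [hJ, rich, mem_filter, mem_Icc] at hq
    exact hq.1
  have hJa : ∀ q : ℕ, ∃ a : ℕ, q ∈ J → l ≤ ((N.filter (fun n => n % q = a % q)).card : ℝ) := by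
    intro q
    by_cases h : q ∈ J
    · have h' := h
      rw [hJ, rich, mem_filter] at h'
      obtain ⟨a, ha⟩ := h'.2
      exact ⟨a, fun _ => ha⟩
    · exact ⟨0, fun h' => absurd h' h⟩
  choose a ha using hJa
  -- `Q ≤ x`
  have hQlex : Q ≤ x := by
    have h1 : (Q : ℝ) ≤ x := by
      calc (Q : ℝ) ≤ (x : ℝ) ^ θ := hQx
        _ ≤ (x : ℝ) ^ (1 : ℝ) := Real.rpow_le_rpow_of_exponent_le hxr hθ1.le
        _ = x := Real.rpow_one _
    exact_mod_cast h1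
  -- the block
  obtain ⟨i, hi, himax⟩ := exists_max_image (range (Nat.log 2 Q + 1))
    (fun i => (J.filter (fun q => Nat.log 2 q = i)).card) ⟨0, mem_range.2 (by omega)⟩
  have hJcard : J.card ≤ (Nat.log 2 Q + 1) * (J.filter (fun q => Nat.log 2 q = i)).card := by
    have h1 : J.card = ∑ b ∈ range (Nat.log 2 Q + 1), (J.filter (fun q => Nat.log 2 q = b)).card := by
      apply card_eq_sum_card_fiberwise
      intro q hq
      rw [coe_range, Set.mem_Iio]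
      have := Nat.log_mono_right (b := 2) (hJsub q hq).2
      omega
    rw [h1]
    calc ∑ b ∈ range (Nat.log 2 Q + 1), (J.filter (fun q => Nat.log 2 q = b)).card
        ≤ ∑ _b ∈ range (Nat.log 2 Q + 1), (J.filter (fun q => Nat.log 2 q = i)).card :=
          sum_le_sum himax
      _ = _ := by rw [sum_const, card_range, smul_eq_mul]
  set Ji := J.filter (fun q => Nat.log 2 q = i) with hJi
  have hlogQ : ((Nat.log 2 Q : ℕ) : ℝ) + 1 ≤ (x : ℝ) ^ η := by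
    refine le_trans ?_ hxl
    have : Nat.log 2 Q ≤ Nat.log 2 x := Nat.log_mono_right hQlex
    have h2 : ((Nat.log 2 Q : ℕ) : ℝ) ≤ Nat.log 2 x := by exact_mod_cast this
    linarith
  have hJiR : (x : ℝ) ^ (-(2 * η)) * Q ≤ (Ji.card : ℝ) := by
    have h1 : (J.card : ℝ) ≤ (x : ℝ) ^ η * Ji.card := by
      calc (J.card : ℝ) ≤ ((Nat.log 2 Q : ℕ) + 1) * Ji.card := by exact_mod_cast hJcard
        _ ≤ (x : ℝ) ^ η * Ji.card := mul_le_mul_of_nonneg_right hlogQ (Nat.cast_nonneg _)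
    have h2 : (x : ℝ) ^ (-η) * Q ≤ (x : ℝ) ^ η * Ji.card := le_trans hrich h1
    have h3 : (x : ℝ) ^ (-(2 * η)) = (x : ℝ) ^ (-η) * (x : ℝ) ^ (-η) := by
      rw [← Real.rpow_add hx0]; congr 1; ring
    rw [h3]
    calc (x : ℝ) ^ (-η) * (x : ℝ) ^ (-η) * Q = (x : ℝ) ^ (-η) * ((x : ℝ) ^ (-η) * Q) := by ring
      _ ≤ (x : ℝ) ^ (-η) * ((x : ℝ) ^ η * Ji.card) :=
          mul_le_mul_of_nonneg_left h2 (Real.rpow_nonneg hx0.le _)
      _ = Ji.card := by rw [← mul_assoc, ← Real.rpow_add hx0, neg_add_cancel, Real.rpow_zero, one_mul]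
  have hJi0 : (0 : ℝ) < Ji.card := lt_of_lt_of_le (by positivity) hJiR
  have hJine : Ji.Nonempty := by
    rw [← card_pos]
    exact_mod_cast hJi0
  have hJiIco : Ji ⊆ Ico (2 ^ i) (2 * 2 ^ i) := by
    intro q hq
    rw [hJi, mem_filter] at hq
    have hq1 := (hJsub q hq.1).1
    rw [mem_Ico, ← pow_succ', ← hq.2]
    exact ⟨Nat.pow_log_le_self 2 (by omega), Nat.lt_pow_succ_log_self (by norm_num) q⟩
  have h2iQ : 2 ^ i ≤ Q := by
    obtain ⟨q, hq⟩ := hJine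
    have h1 := mem_Ico.1 (hJiIco hq)
    have h2 := (hJsub q (mem_filter.1 hq).1).2
    omega
  have hJi2 : Ji.card ≤ 2 ^ i := by
    have h1 := card_le_card hJiIco
    rw [Nat.card_Ico] at h1
    omega
  have hJi2r : (Ji.card : ℝ) ≤ 2 ^ i := by exact_mod_cast hJi2
  have h2iQr : (2 : ℝ) ^ i ≤ Q := by exact_mod_cast h2iQ
  -- the second moment
  have hsec := hSEC (2 ^ i) x Ji a (fun _ => 1) (Nat.one_le_two_pow) hJiIco (fun _ => by simp)
  set w : ℕ → ℝ := fun n => ∑ q ∈ Ji.filter (fun q => n % q = a q % q), (1 : ℝ) with hw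
  have hw0 : ∀ n, 0 ≤ w n := fun n => sum_nonneg fun _ _ => zero_le_one
  have hwJ : ∀ n, w n ≤ Ji.card := by
    intro n
    rw [hw]
    simp only [sum_const, nsmul_eq_mul, mul_one]
    exact_mod_cast card_filter_le _ _
  have hsum1 : Ji.card * l ≤ ∑ n ∈ N, w n := by
    have h1 : ∑ n ∈ N, w n = ∑ q ∈ Ji, ((N.filter (fun n => n % q = a q % q)).card : ℝ) := by
      rw [hw]
      simp only [sum_filter]
      rw [sum_comm]
      apply sum_congr rfl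
      intro q _
      rw [← sum_filter, sum_const, nsmul_eq_mul, mul_one]
    rw [h1]
    calc (Ji.card : ℝ) * l = ∑ _q ∈ Ji, l := by rw [sum_const, nsmul_eq_mul]
      _ ≤ _ := sum_le_sum fun q hq => ha q (mem_filter.1 hq).1
  have hsum2 : ∑ n ∈ N, w n ≤ ∑ n ∈ N.filter (fun n => 3 ≤ n), w n + 2 * Ji.card := by
    rw [← sum_filter_add_sum_filter_not N (fun n => 3 ≤ n)]
    have h1 : N.filter (fun n => ¬ 3 ≤ n) ⊆ {1, 2} := by
      intro n hn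
      rw [mem_filter] at hn
      have h2 := mem_Icc.1 (hN hn.1)
      rw [mem_insert, mem_singleton]
      omega
    have h2 : ∑ n ∈ N.filter (fun n => ¬ 3 ≤ n), w n ≤ ∑ n ∈ ({1, 2} : Finset ℕ), w n :=
      sum_le_sum_of_subset_of_nonneg h1 (fun n _ _ => hw0 n)
    rw [sum_pair (by norm_num)] at h2
    have h3 := hwJ 1
    have h4 := hwJ 2
    linarith
  have hl4 : 4 ≤ l := by
    rw [hl, le_div_iff₀ hQ0]
    calc 4 * (Q : ℝ) ≤ (x : ℝ) ^ η * (x : ℝ) ^ θ :=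
          mul_le_mul (by linarith) hQx hQ0.le (by linarith)
      _ = (x : ℝ) ^ (η + θ) := (Real.rpow_add hx0 _ _).symm
      _ ≤ (x : ℝ) ^ (1 - η) := Real.rpow_le_rpow_of_exponent_le hxr (by linarith)
  have hsum3 : Ji.card * l / 2 ≤ ∑ n ∈ N.filter (fun n => 3 ≤ n), w n := by
    have : 2 * (Ji.card : ℝ) ≤ Ji.card * l / 2 := by nlinarith
    linarith
  have hcs : (∑ n ∈ N.filter (fun n => 3 ≤ n), w n) ^ 2 ≤
      N.card * ((Ji.card : ℝ) ^ 2 + C * x * Ji.card * ((2 ^ i : ℕ) : ℝ) ^ η / ((2 ^ i : ℕ) : ℝ)) := by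
    calc (∑ n ∈ N.filter (fun n => 3 ≤ n), w n) ^ 2
        ≤ (N.filter (fun n => 3 ≤ n)).card * ∑ n ∈ N.filter (fun n => 3 ≤ n), w n ^ 2 :=
          sq_sum_le_card_mul_sum_sq
      _ ≤ N.card * ∑ n ∈ Icc 3 x, w n ^ 2 := by
          apply mul_le_mul
          · exact_mod_cast card_filter_le _ _
          · apply sum_le_sum_of_subset_of_nonneg
            · intro n hn
              rw [mem_filter] at hn
              rw [mem_Icc]
              exact ⟨hn.2, (mem_Icc.1 (hN hn.1)).2⟩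
            · intro n _ _
              exact sq_nonneg _
          · exact sum_nonneg fun n _ => sq_nonneg _
          · exact Nat.cast_nonneg _
      _ ≤ _ := mul_le_mul_of_nonneg_left hsec (Nat.cast_nonneg _)
  -- conclusion
  have hN0 : (0 : ℝ) ≤ N.card := Nat.cast_nonneg _
  clear_value w
  generalize hcc : (Ji.card : ℝ) = c at hJiR hJi0 hJi2r hsum3 hcs
  generalize hNN : (N.card : ℝ) = Nc at hcs hN0 ⊢
  have h2i0 : (0 : ℝ) < 2 ^ i := by positivity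
  have hcast : ((2 ^ i : ℕ) : ℝ) = 2 ^ i := by push_cast; rfl
  rw [hcast] at hcs
  have hpe : ((2 : ℝ) ^ i) ^ η ≤ (x : ℝ) ^ η := by
    apply Real.rpow_le_rpow h2i0.le _ hη0.le
    calc (2 : ℝ) ^ i ≤ Q := h2iQr
      _ ≤ x := by exact_mod_cast hQlex
  -- `C x c (2^i)^η / 2^i ≤ C x^(1+5η) c^2 / Q^2`
  have hkey1 : C * x * c * ((2 : ℝ) ^ i) ^ η / 2 ^ i ≤ c ^ 2 * (C * (x : ℝ) ^ (1 + 5 * η) / (Q : ℝ) ^ 2) := by
    have h1 : (x : ℝ) ^ (-(2 * η)) * Q ≤ 2 ^ i := le_trans hJiR hJi2r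
    have h3 : ((x : ℝ) ^ (-(2 * η)) * Q) * ((x : ℝ) ^ (-(2 * η)) * Q) ≤ 2 ^ i * c :=
      mul_le_mul h1 hJiR (by positivity) h2i0.le
    have h4 : (Q : ℝ) ^ 2 ≤ (x : ℝ) ^ (4 * η) * (2 ^ i * c) := by
      have h5 : (x : ℝ) ^ (4 * η) * (((x : ℝ) ^ (-(2 * η)) * Q) * ((x : ℝ) ^ (-(2 * η)) * Q)) = (Q : ℝ) ^ 2 := by
        have h6 : (x : ℝ) ^ (4 * η) * ((x : ℝ) ^ (-(2 * η)) * (x : ℝ) ^ (-(2 * η))) = 1 := by
          rw [← Real.rpow_add hx0, ← Real.rpow_add hx0]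
          have : 4 * η + (-(2 * η) + -(2 * η)) = 0 := by ring
          rw [this, Real.rpow_zero]
        calc (x : ℝ) ^ (4 * η) * (((x : ℝ) ^ (-(2 * η)) * Q) * ((x : ℝ) ^ (-(2 * η)) * Q))
            = ((x : ℝ) ^ (4 * η) * ((x : ℝ) ^ (-(2 * η)) * (x : ℝ) ^ (-(2 * η)))) * (Q : ℝ) ^ 2 := by ring
          _ = (Q : ℝ) ^ 2 := by rw [h6, one_mul]
      rw [← h5]
      exact mul_le_mul_of_nonneg_left h3 (Real.rpow_nonneg hx0.le _)
    rw [mul_div_assoc', div_le_div_iff₀ h2i0 (by positivity)]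
    have h7 : (x : ℝ) ^ (1 + 5 * η) = x * (x : ℝ) ^ η * (x : ℝ) ^ (4 * η) := by
      rw [← Real.rpow_one_add' hx0.le (by linarith), ← Real.rpow_add hx0]
      congr 1
      ring
    rw [h7]
    calc C * x * c * ((2 : ℝ) ^ i) ^ η * (Q : ℝ) ^ 2
        ≤ C * x * c * (x : ℝ) ^ η * ((x : ℝ) ^ (4 * η) * (2 ^ i * c)) := by
          apply mul_le_mul _ h4 (by positivity) (by positivity)
          exact mul_le_mul_of_nonneg_left hpe (by positivity)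
      _ = c ^ 2 * (C * (x * (x : ℝ) ^ η * (x : ℝ) ^ (4 * η))) * 2 ^ i := by ring
  have hkey2 : l ^ 2 / 4 ≤ Nc * (1 + C * (x : ℝ) ^ (1 + 5 * η) / (Q : ℝ) ^ 2) := by
    have h1 : (c * l / 2) ^ 2 ≤ Nc * (c ^ 2 + c ^ 2 * (C * (x : ℝ) ^ (1 + 5 * η) / (Q : ℝ) ^ 2)) := by
      calc (c * l / 2) ^ 2 ≤ (∑ n ∈ N.filter (fun n => 3 ≤ n), w n) ^ 2 :=
            pow_le_pow_left₀ (by positivity) hsum3 2
        _ ≤ _ := hcs
        _ ≤ _ := by
            apply mul_le_mul_of_nonneg_left _ hN0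
            linarith
    have h2 : c ^ 2 * (l ^ 2 / 4) ≤ c ^ 2 * (Nc * (1 + C * (x : ℝ) ^ (1 + 5 * η) / (Q : ℝ) ^ 2)) := by
      calc c ^ 2 * (l ^ 2 / 4) = (c * l / 2) ^ 2 := by ring
        _ ≤ _ := h1
        _ = _ := by ring
    exact le_of_mul_le_mul_left h2 (by positivity)
  have hkey3 : (x : ℝ) ^ (2 - 2 * η) ≤ Nc * (4 * ((x : ℝ) ^ (2 * θ) + C * (x : ℝ) ^ (1 + 5 * η))) := by
    have h1 : l ^ 2 = (x : ℝ) ^ (2 - 2 * η) / (Q : ℝ) ^ 2 := by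
      rw [hl, div_pow, ← Real.rpow_natCast ((x : ℝ) ^ (1 - η)) 2, ← Real.rpow_mul hx0.le]
      congr 2
      push_cast
      ring
    have h2 : (Q : ℝ) ^ 2 ≤ (x : ℝ) ^ (2 * θ) := by
      calc (Q : ℝ) ^ 2 ≤ ((x : ℝ) ^ θ) ^ 2 := pow_le_pow_left₀ hQ0.le hQx 2
        _ = (x : ℝ) ^ (2 * θ) := by
            rw [← Real.rpow_natCast ((x : ℝ) ^ θ) 2, ← Real.rpow_mul hx0.le]
            congr 1
            push_cast
            ring
    rw [h1] at hkey2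
    have h3 : (x : ℝ) ^ (2 - 2 * η) ≤ Nc * (4 * ((Q : ℝ) ^ 2 + C * (x : ℝ) ^ (1 + 5 * η))) := by
      have h4 : (0 : ℝ) < (Q : ℝ) ^ 2 := by positivity
      have h5 := mul_le_mul_of_nonneg_left hkey2 (by positivity : (0 : ℝ) ≤ 4 * (Q : ℝ) ^ 2)
      have h6 : 4 * (Q : ℝ) ^ 2 * ((x : ℝ) ^ (2 - 2 * η) / (Q : ℝ) ^ 2 / 4) = (x : ℝ) ^ (2 - 2 * η) := by
        field_simp
      have h7 : 4 * (Q : ℝ) ^ 2 * (Nc * (1 + C * (x : ℝ) ^ (1 + 5 * η) / (Q : ℝ) ^ 2)) =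
          Nc * (4 * ((Q : ℝ) ^ 2 + C * (x : ℝ) ^ (1 + 5 * η))) := by
        field_simp
      rw [h6, h7] at h5
      exact h5
    refine le_trans h3 ?_
    apply mul_le_mul_of_nonneg_left _ hN0
    linarith
  -- compare
  have hcmp : 4 * ((x : ℝ) ^ (2 * θ) + C * (x : ℝ) ^ (1 + 5 * η)) * (x : ℝ) ^ (δ + η) ≤
      (x : ℝ) ^ (2 - 2 * η) := by
    have h1 : 4 * (x : ℝ) ^ (2 * θ) * (x : ℝ) ^ (δ + η) ≤ (x : ℝ) ^ (2 - 2 * η) / 2 := by
      have h2 : 8 * ((x : ℝ) ^ (2 * θ) * (x : ℝ) ^ (δ + η)) ≤ (x : ℝ) ^ (2 - 2 * η) := by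
        calc 8 * ((x : ℝ) ^ (2 * θ) * (x : ℝ) ^ (δ + η))
            ≤ (x : ℝ) ^ η * ((x : ℝ) ^ (2 * θ) * (x : ℝ) ^ (δ + η)) :=
              mul_le_mul_of_nonneg_right hx8 (by positivity)
          _ = (x : ℝ) ^ (η + (2 * θ + (δ + η))) := by
              rw [← Real.rpow_add hx0, ← Real.rpow_add hx0]
          _ ≤ (x : ℝ) ^ (2 - 2 * η) := Real.rpow_le_rpow_of_exponent_le hxr (by linarith)
      linarith
    have h3 : 4 * (C * (x : ℝ) ^ (1 + 5 * η)) * (x : ℝ) ^ (δ + η) ≤ (x : ℝ) ^ (2 - 2 * η) / 2 := by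
      have h2 : 8 * C * ((x : ℝ) ^ (1 + 5 * η) * (x : ℝ) ^ (δ + η)) ≤ (x : ℝ) ^ (2 - 2 * η) := by
        calc 8 * C * ((x : ℝ) ^ (1 + 5 * η) * (x : ℝ) ^ (δ + η))
            ≤ (x : ℝ) ^ η * ((x : ℝ) ^ (1 + 5 * η) * (x : ℝ) ^ (δ + η)) :=
              mul_le_mul_of_nonneg_right hx8C (by positivity)
          _ = (x : ℝ) ^ (η + (1 + 5 * η + (δ + η))) := by
              rw [← Real.rpow_add hx0, ← Real.rpow_add hx0]
          _ ≤ (x : ℝ) ^ (2 - 2 * η) := Real.rpow_le_rpow_of_exponent_le hxr (by linarith)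
      linarith
    linarith
  have hden : (0 : ℝ) < 4 * ((x : ℝ) ^ (2 * θ) + C * (x : ℝ) ^ (1 + 5 * η)) := by positivity
  have hfin : (x : ℝ) ^ (δ + η) * (4 * ((x : ℝ) ^ (2 * θ) + C * (x : ℝ) ^ (1 + 5 * η))) ≤
      Nc * (4 * ((x : ℝ) ^ (2 * θ) + C * (x : ℝ) ^ (1 + 5 * η))) := by
    rw [mul_comm]
    exact le_trans hcmp hkey3
  exact le_of_mul_le_mul_right hfin hden

end Pool.Agent.Q190.LD
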