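import Pool.Agent.Q120.LD.Kak

/-!
# Project LD, job KAKZ: the Kakeya bound in `ℤ ^ r`
-/

set_option autoImplicit false

namespace Pool.Agent.Q190.LD

open Finset Filter Pool.Agent.Q120.LD

/-- base `m` -/
def phi (m : ℕ) {r : ℕ} (v : Fin r → ℕ) : ℕ := ∑ i, v i * m ^ (i : ℕ)

theorem phi_add (m : ℕ) {r : ℕ} (a d : Fin r → ℕ) (j : ℕ) :
    phi m (fun i => a i + j * d i) = phi m a + j * phi m d := by
  unfold phi
  rw [Finset.mul_sum, ← Finset.sum_add_distrib]
  apply Finset.sum_congr rfl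
  intro i _
  ring

theorem phi_mono (m : ℕ) {r : ℕ} {a b : Fin r → ℕ} (h : ∀ i, a i ≤ b i) : phi m a ≤ phi m b :=
  Finset.sum_le_sum fun i _ => Nat.mul_le_mul_right _ (h i)

theorem phi_succ (m : ℕ) {r : ℕ} (d : Fin (r + 1) → ℕ) :
    phi m d = d 0 + m * phi m (fun i => d i.succ) := by
  unfold phi
  rw [Fin.sum_univ_succ, Finset.mul_sum]
  congr 1
  · simp
  · apply Finset.sum_congr rfl
    intro i _
    rw [Fin.val_succ, pow_succ]
    ring

theorem phi_inj {m : ℕ} (hm : 1 ≤ m) {r : ℕ} : ∀ d d' : Fin r → ℕ, (∀ i, 1 ≤ d i ∧ d i ≤ m) →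
    (∀ i, 1 ≤ d' i ∧ d' i ≤ m) → phi m d = phi m d' → d = d' := by
  induction r with
  | zero => intro d d' _ _ _; exact funext fun i => i.elim0
  | succ r ih =>
    intro d d' hd hd' h
    rw [phi_succ, phi_succ] at h
    have h0 : d 0 = d' 0 := by
      obtain ⟨a1, a2⟩ := hd 0
      obtain ⟨b1, b2⟩ := hd' 0
      set A := phi m (fun i => d i.succ)
      set B := phi m (fun i => d' i.succ)
      rcases lt_trichotomy A B with hAB | hAB | hAB
      · exfalso
        have : m * (A + 1) ≤ m * B := Nat.mul_le_mul_left m hAB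
        rw [Nat.mul_add] at this
        omega
      · rw [hAB] at h; omega
      · exfalso
        have : m * (B + 1) ≤ m * A := Nat.mul_le_mul_left m hAB
        rw [Nat.mul_add] at this
        omega
    have h1 : phi m (fun i => d i.succ) = phi m (fun i => d' i.succ) := by
      rw [h0] at h
      have h2 := Nat.add_left_cancel h
      exact Nat.eq_of_mul_eq_mul_left (by omega) h2
    have h2 := ih _ _ (fun i => hd i.succ) (fun i => hd' i.succ) h1
    funext i
    refine Fin.cases h0 (fun i => ?_) i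
    exact congrFun h2 i

theorem phi_one_le {m : ℕ} (hm : 2 ≤ m) (r : ℕ) :
    m ^ r ≤ m * phi m (fun _ : Fin r => 1) + 1 ∧ phi m (fun _ : Fin r => 1) + 1 ≤ 2 * m ^ (r - 1) + (if r = 0 then 1 else 0) := by
  induction r with
  | zero => simp [phi]
  | succ r ih =>
    rw [phi_succ]
    obtain ⟨h1, h2⟩ := ih
    constructor
    · rw [pow_succ]
      nlinarith
    · rw [if_neg (by omega), Nat.add_sub_cancel]
      by_cases hr : r = 0
      · subst hr
        simp [phi]
      · rw [if_neg hr] at h2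
        have h3 : m ^ r = m * m ^ (r - 1) := by
          rw [← pow_succ']
          congr 1
          omega
        rw [h3]
        nlinarith

/-- size of `phi` of the constant vector one: between `m ^ (r - 1)` and `2 m ^ (r - 1)` -/
theorem phi_one_bounds {m : ℕ} (hm : 2 ≤ m) {r : ℕ} (hr : 1 ≤ r) :
    m ^ (r - 1) ≤ phi m (fun _ : Fin r => 1) ∧ phi m (fun _ : Fin r => 1) ≤ 2 * m ^ (r - 1) := by
  obtain ⟨s, rfl⟩ : ∃ s, r = s + 1 := ⟨r - 1, by omega⟩
  have h1 := (phi_one_le hm (s + 1)).2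
  rw [if_neg (by omega)] at h1
  refine ⟨?_, by omega⟩
  unfold phi
  have h2 := Finset.single_le_sum (f := fun i : Fin (s + 1) => 1 * m ^ (i : ℕ))
    (fun i _ => Nat.zero_le _) (Finset.mem_univ (Fin.last s))
  simp only [Fin.val_last, one_mul] at h2
  simpa using h2

theorem phi_const (m : ℕ) {r : ℕ} (c : ℕ) : phi m (fun _ : Fin r => c) = c * phi m (fun _ : Fin r => 1) := by
  unfold phi
  rw [Finset.mul_sum]
  apply Finset.sum_congr rfl
  intro i _
  ring

theorem t_KAKZ : J_KAKZ := by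
  classical
  intro r θ δ hr hθ hδ hK
  obtain ⟨η, hη, hev⟩ := hK
  have hr1 : (0 : ℝ) < r + 1 := by positivity
  -- `4 m ^ (r + 1)` tends to infinity
  have hx : Tendsto (fun m : ℕ => 4 * m ^ (r + 1)) atTop atTop := by
    apply tendsto_atTop_mono (f := fun m : ℕ => m) _ tendsto_id
    intro m
    rcases Nat.eq_zero_or_pos m with h | h
    · subst h; simp
    · have : m ^ 1 ≤ m ^ (r + 1) := Nat.pow_le_pow_right h (by omega)
      rw [pow_one] at this
      omega
  have h1 := hx.eventually hev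
  have h2 : ∀ᶠ m : ℕ in atTop, (2 : ℝ) ≤ (m : ℝ) ^ ((r + 1) * θ - r) := by
    have h3 : 0 < (r + 1) * θ - (r : ℝ) := by
      rw [div_lt_iff₀ hr1] at hθ
      linarith
    exact ((tendsto_rpow_atTop h3).comp tendsto_natCast_atTop_atTop).eventually_ge_atTop 2
  have h3 : ∀ᶠ m : ℕ in atTop, (8 : ℝ) ≤ (m : ℝ) ^ η :=
    ((tendsto_rpow_atTop hη).comp tendsto_natCast_atTop_atTop).eventually_ge_atTop 8
  filter_upwards [h1, h2, h3, eventually_ge_atTop 2] with m hm1 hm2 hm3 hm E hE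
  have hm0 : 0 < m := by omega
  have hmr : (2 : ℝ) ≤ m := by exact_mod_cast hm
  have hmr0 : (0 : ℝ) < m := by linarith
  set x : ℕ := 4 * m ^ (r + 1) with hxdef
  set Q : ℕ := phi m (fun _ : Fin r => m) with hQdef
  obtain ⟨hq1, hq2⟩ := phi_one_bounds hm hr
  have hQ : Q = m * phi m (fun _ : Fin r => 1) := phi_const m m
  have hmm : m * m ^ (r - 1) = m ^ r := by
    rw [← pow_succ']; congr 1; omega
  have hQ1 : m ^ r ≤ Q := by rw [hQ, ← hmm]; exact Nat.mul_le_mul_left m hq1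
  have hQ2 : Q ≤ 2 * m ^ r := by
    rw [hQ, ← hmm]
    calc m * phi m (fun _ : Fin r => 1) ≤ m * (2 * m ^ (r - 1)) := Nat.mul_le_mul_left m hq2
      _ = 2 * (m * m ^ (r - 1)) := by ring
  have hpow : 1 ≤ m ^ r := Nat.one_le_pow _ _ hm0
  have hxr : (x : ℝ) = 4 * (m : ℝ) ^ (r + 1) := by rw [hxdef]; push_cast; ring
  have hmx : (m : ℝ) ^ (r + 1) ≤ x := by
    rw [hxr]
    have : (0 : ℝ) ≤ (m : ℝ) ^ (r + 1) := by positivity
    linarith
  have hx1 : (1 : ℝ) ≤ x := by
    have : (1 : ℝ) ≤ (m : ℝ) ^ (r + 1) := one_le_pow₀ (by linarith)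
    linarith
  have hx0 : (0 : ℝ) < x := by linarith
  have hmlex : (m : ℝ) ≤ x := by
    refine le_trans ?_ hmx
    calc (m : ℝ) = (m : ℝ) ^ 1 := (pow_one _).symm
      _ ≤ (m : ℝ) ^ (r + 1) := pow_le_pow_right₀ (by linarith) (by omega)
  have hxη : (8 : ℝ) ≤ (x : ℝ) ^ η := le_trans hm3 (Real.rpow_le_rpow hmr0.le hmlex hη.le)
  -- the set
  set N : Finset ℕ := (E.filter (fun v => (∀ i, 1 ≤ v i ∧ v i ≤ 2 * m ^ 2))).image (phi m) with hN
  have hNE : N.card ≤ E.card := le_trans Finset.card_image_le (Finset.card_filter_le _ _)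
  have hNsub : N ⊆ Icc 1 x := by
    intro n hn
    rw [hN, mem_image] at hn
    obtain ⟨v, hv, rfl⟩ := hn
    rw [mem_filter] at hv
    rw [mem_Icc]
    constructor
    · calc 1 ≤ m ^ (r - 1) := Nat.one_le_pow _ _ hm0
        _ ≤ phi m (fun _ : Fin r => 1) := hq1
        _ ≤ phi m v := phi_mono m (fun i => (hv.2 i).1)
    · calc phi m v ≤ phi m (fun _ : Fin r => 2 * m ^ 2) := phi_mono m (fun i => (hv.2 i).2)
        _ = 2 * m ^ 2 * phi m (fun _ : Fin r => 1) := phi_const m _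
        _ ≤ 2 * m ^ 2 * (2 * m ^ (r - 1)) := Nat.mul_le_mul_left _ hq2
        _ = 4 * (m * (m * m ^ (r - 1))) := by ring
        _ = x := by rw [hmm, hxdef, pow_succ']
  have hQx : (Q : ℝ) ≤ (x : ℝ) ^ θ := by
    have hθ0 : 0 ≤ θ := le_trans (by positivity) hθ.le
    calc (Q : ℝ) ≤ 2 * (m : ℝ) ^ r := by exact_mod_cast hQ2
      _ ≤ (m : ℝ) ^ ((r + 1) * θ - r) * (m : ℝ) ^ r :=
          mul_le_mul_of_nonneg_right hm2 (by positivity)
      _ = (m : ℝ) ^ ((r + 1) * θ) := by
          rw [← Real.rpow_natCast (m : ℝ) r, ← Real.rpow_add hmr0]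
          congr 1
          ring
      _ = ((m : ℝ) ^ (r + 1)) ^ θ := by
          rw [← Real.rpow_natCast (m : ℝ) (r + 1), ← Real.rpow_mul hmr0.le]
          push_cast
          rfl
      _ ≤ (x : ℝ) ^ θ := Real.rpow_le_rpow (by positivity) hmx hθ0
  set l : ℝ := (x : ℝ) ^ (1 - η) / Q with hl
  have hlm : l ≤ ((m - 1 : ℕ) : ℝ) := by
    have hQr : (m : ℝ) ^ r ≤ Q := by exact_mod_cast hQ1
    have hQ0 : (0 : ℝ) < Q := lt_of_lt_of_le (by positivity) hQr
    rw [hl, div_le_iff₀ hQ0, Real.rpow_sub hx0, Real.rpow_one, Nat.cast_sub (by omega), Nat.cast_one,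
      div_le_iff₀ (by linarith)]
    have h4 : (m : ℝ) / 2 ≤ (m : ℝ) - 1 := by linarith
    calc (x : ℝ) = (m : ℝ) / 2 * (m : ℝ) ^ r * 8 := by rw [hxr]; ring
      _ ≤ ((m : ℝ) - 1) * Q * (x : ℝ) ^ η := by
          apply mul_le_mul _ hxη (by norm_num)
          · exact mul_nonneg (by linarith) hQ0.le
          · exact mul_le_mul h4 hQr (by positivity) (by linarith)
  -- the rich moduli
  have hrich : (Fintype.piFinset (fun _ : Fin r => Icc 1 m)).image (phi m) ⊆ rich N Q l := by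
    intro q hq
    rw [mem_image] at hq
    obtain ⟨d, hd, rfl⟩ := hq
    rw [Fintype.mem_piFinset] at hd
    have hd' : ∀ i, 1 ≤ d i ∧ d i ≤ m := fun i => mem_Icc.1 (hd i)
    have hq0 : 1 ≤ phi m d := by
      calc 1 ≤ m ^ (r - 1) := Nat.one_le_pow _ _ hm0
        _ ≤ phi m (fun _ : Fin r => 1) := hq1
        _ ≤ phi m d := phi_mono m (fun i => (hd' i).1)
    unfold rich
    rw [mem_filter, mem_Icc]
    refine ⟨⟨hq0, phi_mono m (fun i => (hd' i).2)⟩, ?_⟩
    obtain ⟨a, ha, haE⟩ := hE d hd'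
    refine ⟨phi m a, le_trans hlm ?_⟩
    have h5 : (Icc 1 (m - 1)).image (fun j => phi m a + j * phi m d) ⊆
        N.filter (fun n => n % phi m d = phi m a % phi m d) := by
      intro n hn
      rw [mem_image] at hn
      obtain ⟨j, hj, rfl⟩ := hn
      rw [mem_Icc] at hj
      rw [mem_filter]
      constructor
      · rw [hN, mem_image]
        refine ⟨fun i => a i + j * d i, ?_, phi_add m a d j⟩
        rw [mem_filter]
        refine ⟨haE j (by omega), fun i => ⟨?_, ?_⟩⟩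
        · have h9 : 1 * 1 ≤ j * d i := Nat.mul_le_mul hj.1 (hd' i).1
          change 1 ≤ a i + j * d i
          omega
        · have h6 : j * d i ≤ m * m := Nat.mul_le_mul (by omega) (hd' i).2
          have h7 := ha i
          have h8 : m ^ 2 = m * m := sq m
          change a i + j * d i ≤ 2 * m ^ 2
          omega
      · rw [Nat.add_mul_mod_self_right]
    have h6 := card_le_card h5
    rw [card_image_of_injective, Nat.card_Icc, Nat.add_sub_cancel] at h6
    · exact_mod_cast h6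
    · intro j j' hjj
      have h7 : j * phi m d = j' * phi m d := by
        have := hjj
        simp only at this
        omega
      exact Nat.eq_of_mul_eq_mul_right hq0 h7
  have hcard : (x : ℝ) ^ (-η) * Q ≤ ((rich N Q l).card : ℝ) := by
    have h4 := card_le_card hrich
    rw [card_image_of_injOn, Fintype.card_piFinset] at h4
    · simp only [Nat.card_Icc, Nat.add_sub_cancel, prod_const, card_univ, Fintype.card_fin] at h4
      have h5 : (Q : ℝ) ≤ 2 * (m : ℝ) ^ r := by exact_mod_cast hQ2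
      have h6 : ((m : ℝ) ^ r) ≤ ((rich N Q l).card : ℝ) := by exact_mod_cast h4
      refine le_trans ?_ h6
      rw [Real.rpow_neg hx0.le, inv_mul_le_iff₀ (by linarith)]
      have h7 : (0 : ℝ) ≤ (m : ℝ) ^ r := by positivity
      calc (Q : ℝ) ≤ 2 * (m : ℝ) ^ r := h5
        _ ≤ (x : ℝ) ^ η * (m : ℝ) ^ r := mul_le_mul_of_nonneg_right (by linarith) h7
    · intro d hd d' hd' hdd
      rw [mem_coe, Fintype.mem_piFinset] at hd hd'
      exact phi_inj hm0 d d' (fun i => mem_Icc.1 (hd i)) (fun i => mem_Icc.1 (hd' i)) hdd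
  have hfin := hm1 Q N (le_trans hpow hQ1) hQx hNsub hcard
  calc (m : ℝ) ^ ((r + 1) * δ) = ((m : ℝ) ^ (r + 1)) ^ δ := by
        rw [← Real.rpow_natCast (m : ℝ) (r + 1), ← Real.rpow_mul hmr0.le]
        push_cast
        rfl
    _ ≤ (x : ℝ) ^ δ := Real.rpow_le_rpow (by positivity) hmx hδ
    _ ≤ (x : ℝ) ^ (δ + η) := Real.rpow_le_rpow_of_exponent_le hx1 (by linarith)
    _ ≤ (N.card : ℝ) := hfin
    _ ≤ (E.card : ℝ) := by exact_mod_cast hNE

end Pool.Agent.Q190.LD
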